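import Pool.Agent.W289.ZS.Stm

/-!
T2: bringing pebbles from the root of a top piece to the root
-/

set_option autoImplicit false

namespace Pool.Agent.W52.ZS

open Finset W289.ZS

universe u v

theorem chain (hB : TaskBasic.{u, v}) : TaskChain.{u, v} := by
  intro ι V _ _ _ D A X r _ hX q hq
  have hlast := (hB ι V D).2.2.2.2.2.2
  have key : ∀ (k : ℕ) (Q : V), D.dep q Q = k → Function.update r q Q ∈ X →
      ∀ (s : (ι → V) → ℕ) (t : ℕ), Solv D A s (Function.update r q Q) (D.p q ^ k * t) →
        Solv D A s r t := by
    intro k
    induction k with
    | zero =>
      intro Q hQ hmem s t h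
      have h1 := hX.dep_zero _ hmem q hq
      rw [Function.update_self] at h1
      have h2 := h1 hQ
      rw [h2, Function.update_eq_self, pow_zero, one_mul] at h
      exact h
    | succ k ih =>
      intro Q hQ hmem s t h
      have e1 : D.down q (Function.update r q Q) = Function.update r q (D.par q Q) := by
        unfold Dat.down
        rw [Function.update_self, Function.update_idem]
      have hpos : 0 < D.dep q ((Function.update r q Q) q) := by
        rw [Function.update_self, hQ]
        exact Nat.succ_pos k
      have h1 := hX.down_mem _ hmem q hq hpos
      have h2 := hX.dep_par _ hmem q hq hpos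
      rw [Function.update_self, hQ] at h2
      rw [e1] at h1
      have h3 := hlast A s (Function.update r q Q) q (D.p q ^ k * t) hq hpos (by
        rw [← mul_assoc, ← pow_succ']
        exact h)
      rw [e1] at h3
      exact ih (D.par q Q) (by omega) h1 s t h3
  intro Q hQ s t h
  exact key _ Q rfl hQ s t h

end Pool.Agent.W52.ZS
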