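import Pool.Agent.W289.ZS.Stm

/-!
T7: decomposition of counts
-/

set_option autoImplicit false

namespace Pool.Agent.W52.ZS

open Finset W289.ZS

universe u v

theorem sup_eq {σ : Type*} (X : Finset σ) (s : σ → ℕ) :
    W289.ZS.sup X s = cnt X (fun v => if s v ≠ 0 then 1 else 0) := by
  unfold W289.ZS.sup cnt
  rw [Finset.card_filter]

theorem dep_of_Qs {ι : Type u} {V : Type v} [DecidableEq V] (D : Dat ι V) (X : Finset (ι → V))
    (q : ι) (b : ℕ) (Q : V) (h : Q ∈ Qs D q b X) : D.dep q Q = b := by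
  unfold Qs at h
  rw [mem_image] at h
  obtain ⟨v, hv, rfl⟩ := h
  exact (mem_filter.1 hv).2

theorem cnt_dec {ι : Type u} {V : Type v} [DecidableEq V] (D : Dat ι V) (X : Finset (ι → V))
    (q : ι) (b : ℕ) (h : ∀ v ∈ X, D.dep q (v q) ≤ b) (s : (ι → V) → ℕ) :
    cnt X s = cnt (Xlt D q b X) s + ∑ Q ∈ Qs D q b X, cnt (YY q X Q) s := by
  unfold cnt
  rw [← sum_filter_add_sum_filter_not X (fun v => D.dep q (v q) < b) s]
  congr 1
  have h1 : X.filter (fun v => ¬ D.dep q (v q) < b) = X.filter (fun v => D.dep q (v q) = b) := by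
    refine filter_congr fun v hv => ?_
    have := h v hv
    omega
  rw [h1, ← sum_fiberwise_of_maps_to (s := X.filter (fun v => D.dep q (v q) = b))
    (t := Qs D q b X) (g := fun v => v q) (fun v hv => mem_image_of_mem _ hv)]
  refine sum_congr rfl fun Q hQ => ?_
  have h2 := dep_of_Qs D X q b Q hQ
  refine sum_congr ?_ fun _ _ => rfl
  unfold YY
  ext v
  rw [mem_filter, mem_filter, mem_filter]
  constructor
  · rintro ⟨⟨h3, _⟩, h5⟩
    exact ⟨h3, h5⟩
  · rintro ⟨h3, h5⟩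
    exact ⟨⟨h3, by rw [h5, h2]⟩, h5⟩

theorem cnt_sdiff {σ : Type*} [DecidableEq σ] (X Y : Finset σ) (h : Y ⊆ X) (s : σ → ℕ) :
    cnt X s = cnt Y s + cnt (X \ Y) s := by
  unfold cnt
  rw [add_comm, sum_sdiff h]

theorem counts : TaskCounts.{u, v} := by
  intro ι V _ _ _ D X q b h
  refine ⟨cnt_dec D X q b h, fun s => ?_, fun Q hQ => ?_, fun s Y hY => cnt_sdiff X Y hY s,
    fun s Y hY => ?_⟩
  · simp only [sup_eq]
    exact cnt_dec D X q b h _
  · rw [Finset.disjoint_left]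
    intro v hv hv'
    unfold YY at hv
    unfold Xlt at hv'
    rw [mem_filter] at hv hv'
    have h2 := dep_of_Qs D X q b Q hQ
    have h3 := hv'.2
    rw [hv.2, h2] at h3
    exact lt_irrefl _ h3
  · simp only [sup_eq]
    exact cnt_sdiff X Y hY _

end Pool.Agent.W52.ZS
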